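import Mathlib
import Pool.Agent.R762.Mx13

/-! MP_68e044_gt (Q1): every power of a closure sequence is a closure sequence.  The definitions
(annuli, inscribed circles, tangent chords, chains, closure sequences) are in
`Pool.Agent.R762.Mx4`. -/

set_option autoImplicit false

namespace Pool.Agent.Results.MP_68e044_gt.Powers

open Pool.Agent.R762.Mx

/-- **Powers of closure sequences are closure sequences.**  The word `w ^ m` is the concatenation
`(List.replicate m w).flatten` of `m` copies of `w`. -/
theorem result (w : List Letter) (hw : IsClosureSeq w) (m : ℕ) (hm : 1 ≤ m) :
    IsClosureSeq (List.replicate m w).flatten :=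
  power_closure w hw m hm

end Pool.Agent.Results.MP_68e044_gt.Powers
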